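import Mathlib

/-!
# Gluing `1`-Lipschitz functions along a finite closed cover of a convex set
-/

set_option autoImplicit false

open Set Filter Topology

namespace Pool.Agent.N545.ST

/-- A continuous function on a convex set which is `1`-Lipschitz on each of finitely many closed
sets covering the convex set is `1`-Lipschitz. -/
theorem lip_of_cover {E : Type*} [NormedAddCommGroup E] [NormedSpace ℝ E] {C : Set E}
    (hC : Convex ℝ C) {f : E → ℝ} (hf : ContinuousOn f C) {ι : Type*} (T : Finset ι)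
    (D : ι → Set E) (hD : ∀ i ∈ T, IsClosed (D i))
    (hl : ∀ i ∈ T, ∀ x ∈ C, ∀ y ∈ C, x ∈ D i → y ∈ D i → f x - f y ≤ dist x y)
    (hcov : ∀ x ∈ C, ∃ i ∈ T, x ∈ D i) :
    ∀ x ∈ C, ∀ y ∈ C, f x - f y ≤ dist x y := by
  intro x hx y hy
  set γ : ℝ → E := fun t => AffineMap.lineMap y x t with hγ
  have hγc : Continuous γ := by
    simpa [hγ] using (AffineMap.lineMap_continuous (R := ℝ) (p := y) (q := x))
  have hγC : ∀ t ∈ Icc (0 : ℝ) 1, γ t ∈ C := by
    intro t ht
    exact hC.lineMap_mem hy hx ht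
  have hγd : ∀ t u, dist (γ t) (γ u) = |t - u| * dist x y := by
    intro t u
    simp only [hγ]
    rw [dist_lineMap_lineMap, dist_comm y x, Real.dist_eq]
  have hlabs : ∀ i ∈ T, ∀ x ∈ C, ∀ y ∈ C, x ∈ D i → y ∈ D i → |f x - f y| ≤ dist x y := by
    intro i hi x hx y hy hx' hy'
    rw [abs_le]
    constructor
    · have := hl i hi y hy x hx hy' hx'
      rw [dist_comm] at this
      linarith
    · exact hl i hi x hx y hy hx' hy'
  set φ : ℝ → ℝ := fun t => f (γ t) with hφ
  have hφc : ContinuousOn φ (Icc 0 1) := hf.comp hγc.continuousOn hγC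
  set s : Set ℝ := {t | |φ t - φ 0| ≤ t * dist x y} with hs
  have hclosed : IsClosed (s ∩ Icc 0 1) := by
    have h1 : ContinuousOn (fun t => t * dist x y - |φ t - φ 0|) (Icc 0 1) := by
      fun_prop
    have h2 := h1.preimage_isClosed_of_isClosed isClosed_Icc (isClosed_Ici (a := (0 : ℝ)))
    convert h2 using 1
    ext t
    simp only [hs, mem_inter_iff, mem_ofPred_eq, mem_preimage, mem_Ici, sub_nonneg]
    tauto
  have hsub : Icc (0 : ℝ) 1 ⊆ s := by
    apply hclosed.Icc_subset_of_forall_exists_gt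
    · simp [hs]
    · intro t ht z' hz'
      obtain ⟨hts, ht0, ht1⟩ := ht
      have hev : ∀ᶠ z in 𝓝 t, ∀ i ∈ T, γ t ∉ D i → γ z ∉ D i := by
        rw [Filter.eventually_all_finset]
        intro i hi
        by_cases h : γ t ∈ D i
        · simp [h]
        · have h3 : ∀ᶠ z in 𝓝 t, γ z ∈ (D i)ᶜ :=
            hγc.continuousAt.eventually ((hD i hi).isOpen_compl.mem_nhds h)
          filter_upwards [h3] with z hz _
          exact hz
      rw [Metric.eventually_nhds_iff] at hev
      obtain ⟨δ, hδ, hev⟩ := hev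
      set z := min (min z' 1) (t + δ / 2) with hz
      have htz : t < z := by
        simp only [hz, lt_min_iff]
        exact ⟨⟨hz', ht1⟩, by linarith⟩
      have hz1 : z ≤ 1 := (min_le_left _ _).trans (min_le_right _ _)
      have hzz' : z ≤ z' := (min_le_left _ _).trans (min_le_left _ _)
      have hzδ : z ≤ t + δ / 2 := min_le_right _ _
      refine ⟨z, ?_, htz, hzz'⟩
      have hzI : z ∈ Icc (0 : ℝ) 1 := ⟨ht0.trans htz.le, hz1⟩
      have h4 := @hev z (by rw [Real.dist_eq, abs_of_pos (by linarith)]; linarith)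
      obtain ⟨i, hi, hfi⟩ := hcov (γ z) (hγC z hzI)
      have h5 : γ t ∈ D i := by
        by_contra h
        exact h4 i hi h hfi
      have h6 : |φ z - φ t| ≤ (z - t) * dist x y := by
        refine (hlabs i hi _ (hγC z hzI) _ (hγC t ⟨ht0, ht1.le⟩) hfi h5).trans ?_
        rw [hγd, abs_of_pos (by linarith)]
      have h7 : |φ t - φ 0| ≤ t * dist x y := hts
      change |φ z - φ 0| ≤ z * dist x y
      calc |φ z - φ 0| = |(φ z - φ t) + (φ t - φ 0)| := by ring_nf
        _ ≤ |φ z - φ t| + |φ t - φ 0| := abs_add_le _ _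
        _ ≤ (z - t) * dist x y + t * dist x y := add_le_add h6 h7
        _ = z * dist x y := by ring
  have h1 : |φ 1 - φ 0| ≤ 1 * dist x y := hsub ⟨zero_le_one, le_rfl⟩
  have e1 : φ 1 = f x := by simp [hφ, hγ]
  have e0 : φ 0 = f y := by simp [hφ, hγ]
  rw [e1, e0, one_mul] at h1
  exact (le_abs_self _).trans h1

end Pool.Agent.N545.ST
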