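import Pool.Agent.N545.ST.Comb
import Pool.Agent.N545.ST.Cover
import Pool.Agent.H258R2.Calib.Lemma

/-!
# The lower bound for the length of connected sets
-/

set_option autoImplicit false

open Set Filter Topology

namespace Pool.Agent.N545.ST

/-- second coordinate function -/
noncomputable def Q (x y : ℝ) : ℝ := y - g x y - g (-x) y + g x (-y) + g (-x) (-y)

/-- the third function -/
noncomputable def R (x y : ℝ) : ℝ :=
  (s - 1) / 2 * (|x + y| - |x - y|) + g x y - g (-x) y - g x (-y) + g (-x) (-y)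

/-- the function of the corner `(σ, τ)` -/
noncomputable def psi (σ τ x y : ℝ) : ℝ := (σ * x + τ * Q x y + σ * τ * R x y) / 2

/-- sign of a Boolean -/
def sg (b : Bool) : ℝ := if b then 1 else -1

@[simp] lemma sg_true : sg true = 1 := rfl
@[simp] lemma sg_false : sg false = -1 := rfl

/-- combination of the calibration functions -/
noncomputable def Phi (c b : Bool → Bool → ℝ) (x y : ℝ) : ℝ :=
  ∑ σ : Bool, ∑ τ : Bool, (c σ τ * psi (sg σ) (sg τ) x y +
    (b σ τ - c σ τ) * h (sg σ * x) (sg τ * y))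

lemma g_neg_left {x y : ℝ} (hx0 : 0 ≤ x) (hy1 : y ≤ 11 / 10) : g (-x) y = 0 := by
  have h1 := s_lt
  have h2 := lt_s
  unfold g
  rw [max_eq_left]
  refine (min_le_right _ _).trans ?_
  nlinarith

lemma g_neg_right {x y : ℝ} (hx0 : 0 ≤ x) (hy0 : 0 ≤ y) : g x (-y) = 0 := by
  unfold g
  rw [max_eq_left]
  refine (min_le_left _ _).trans ?_
  linarith

lemma h_neg_left {x y : ℝ} (hx0 : 0 ≤ x) (hy1 : y ≤ 11 / 10) : h (-x) y = -(1 / 50) := by
  have h1 := s_lt
  have h2 := lt_s
  unfold h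
  rw [max_eq_left]
  refine (min_le_right _ _).trans ((min_le_right _ _).trans ?_)
  nlinarith

lemma h_neg_right {x y : ℝ} (hx1 : x ≤ 11 / 10) (hy0 : 0 ≤ y) : h x (-y) = -(1 / 50) := by
  have h1 := s_lt
  have h2 := lt_s
  unfold h
  rw [max_eq_left]
  refine (min_le_right _ _).trans ((min_le_right _ _).trans ?_)
  nlinarith

lemma abs_min {x y : ℝ} (hx0 : 0 ≤ x) (hy0 : 0 ≤ y) : |x + y| - |x - y| = 2 * min x y := by
  rw [abs_of_nonneg (by linarith)]
  rcases le_total x y with hxy | hxy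
  · rw [min_eq_left hxy, abs_of_nonpos (by linarith)]; ring
  · rw [min_eq_right hxy, abs_of_nonneg (by linarith)]; ring

lemma Phi_Dp (c b : Bool → Bool → ℝ) {x y : ℝ} (hx0 : 0 ≤ x) (hx1 : x ≤ 11 / 10)
    (hy0 : 0 ≤ y) (hy1 : y ≤ 11 / 10) :
    Phi c b x y = F ((c true true - c false true - c false false + c true false) / 2)
      ((c true true + c false true - c false false - c true false) / 2)
      ((c true true - c false true + c false false - c true false) / 2 * (s - 1))
      ((c true true - c false true + c false false - c true false) / 2 -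
        (c true true + c false true - c false false - c true false) / 2)
      (b true true - c true true) x y -
      1 / 50 * ((b false true - c false true) + (b false false - c false false) +
        (b true false - c true false)) := by
  have e1 := g_neg_left hx0 hy1
  have e2 := g_neg_right hx0 hy0
  have e3 : g (-x) (-y) = 0 := g_neg_left hx0 (by linarith)
  have e4 := h_neg_left hx0 hy1
  have e5 := h_neg_right hx1 hy0
  have e6 : h (-x) (-y) = -(1 / 50) := h_neg_left hx0 (by linarith)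
  have e7 := abs_min hx0 hy0
  simp only [Phi, Fintype.sum_bool, sg_true, sg_false, one_mul, neg_mul, e4, e5, e6, psi, Q, R, e1,
    e2, e3, e7, F]
  ring

/-- action of signs -/
def act (a b : Bool) : Bool := if a then b else !b

lemma Phi_symm (c b : Bool → Bool → ℝ) (α β : Bool) (x y : ℝ) :
    Phi c b (sg α * x) (sg β * y) =
      Phi (fun σ τ => c (act α σ) (act β τ)) (fun σ τ => b (act α σ) (act β τ)) x y := by
  have a1 : |-x + y| = |x - y| := by rw [← abs_neg]; congr 1; ring
  have a2 : |-x - y| = |x + y| := by rw [← abs_neg]; congr 1; ring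
  have a3 : |x + -y| = |x - y| := by congr 1
  have a4 : |x - -y| = |x + y| := by congr 1; ring
  have a5 : |-x + -y| = |x + y| := by rw [← abs_neg]; congr 1; ring
  have a6 : |-x - -y| = |x - y| := by rw [← abs_neg]; congr 1; ring
  cases α <;> cases β <;>
    simp only [Phi, Fintype.sum_bool, sg_true, sg_false, one_mul, neg_mul, psi, Q, R, act, neg_neg,
      a1, a2, a3, a4, a5, a6, if_true, Bool.not_true, Bool.not_false, Bool.false_eq_true, if_false] <;>
    ring

/-- the rectangle -/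
def Dm : Set E2 := {p | |p 0| ≤ 11 / 10 ∧ |p 1| ≤ 11 / 10}

lemma convex_Dm : Convex ℝ Dm := by
  intro p hp q hq a b ha hb hab
  obtain ⟨h1, h3⟩ := hp
  obtain ⟨k1, k3⟩ := hq
  rw [abs_le] at h1 h3 k1 k3
  have e : b = 1 - a := by linarith
  simp only [Dm, mem_ofPred_eq, PiLp.add_apply, PiLp.smul_apply, smul_eq_mul, abs_le]
  subst e
  refine ⟨⟨?_, ?_⟩, ?_, ?_⟩ <;> nlinarith

lemma continuous_Phi (c b : Bool → Bool → ℝ) : Continuous fun p : E2 => Phi c b (p 0) (p 1) := by
  have h1 : ∀ σ τ : ℝ, Continuous fun p : E2 => h (σ * p 0) (τ * p 1) := fun σ τ =>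
    continuous_h.comp (f := fun p : E2 => (σ * p 0, τ * p 1)) (by fun_prop)
  have g1 : Continuous fun p : E2 => g (p 0) (p 1) :=
    continuous_g.comp (f := fun p : E2 => (p 0, p 1)) (by fun_prop)
  have g2 : Continuous fun p : E2 => g (-p 0) (p 1) :=
    continuous_g.comp (f := fun p : E2 => (-p 0, p 1)) (by fun_prop)
  have g3 : Continuous fun p : E2 => g (p 0) (-p 1) :=
    continuous_g.comp (f := fun p : E2 => (p 0, -p 1)) (by fun_prop)
  have g4 : Continuous fun p : E2 => g (-p 0) (-p 1) :=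
    continuous_g.comp (f := fun p : E2 => (-p 0, -p 1)) (by fun_prop)
  have h2 : ∀ σ τ : ℝ, Continuous fun p : E2 => psi σ τ (p 0) (p 1) := by
    intro σ τ
    unfold psi Q R
    fun_prop
  unfold Phi
  exact continuous_finsetSum _ fun σ _ => continuous_finsetSum _ fun τ _ =>
    (continuous_const.mul (h2 _ _)).add (continuous_const.mul (h1 _ _))

/-- reflection of the plane -/
noncomputable def refl (α β : Bool) (p : E2) : E2 := !₂[sg α * p 0, sg β * p 1]

lemma sg_sq (α : Bool) : sg α ^ 2 = 1 := by cases α <;> simp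

lemma dist_refl (α β : Bool) (p q : E2) : dist (refl α β p) (refl α β q) = dist p q := by
  rw [dist_eq2, dist_eq2]
  congr 1
  simp only [refl, PiLp.toLp_apply, Matrix.cons_val_zero, Matrix.cons_val_one,
    Matrix.cons_val_fin_one]
  have h1 := sg_sq α
  have h2 := sg_sq β
  linear_combination (p 0 - q 0) ^ 2 * h1 + (p 1 - q 1) ^ 2 * h2

lemma Phi_lip (c b : Bool → Bool → ℝ) (hc : ∀ σ τ, c σ τ = 0 ∨ c σ τ = 1)
    (hb : ∀ σ τ, b σ τ = 0 ∨ b σ τ = 1) :
    ∀ p ∈ Dm, ∀ q ∈ Dm, Phi c b (p 0) (p 1) - Phi c b (q 0) (q 1) ≤ dist p q := by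
  refine lip_of_cover convex_Dm (f := fun p : E2 => Phi c b (p 0) (p 1))
    (continuous_Phi c b).continuousOn (Finset.univ : Finset (Bool × Bool))
    (fun i => {p | 0 ≤ sg i.1 * p 0 ∧ 0 ≤ sg i.2 * p 1}) ?_ ?_ ?_
  · intro i _
    apply IsClosed.inter
    · exact isClosed_le continuous_const (show Continuous fun p : E2 => sg i.1 * p 0 by fun_prop)
    · exact isClosed_le continuous_const (show Continuous fun p : E2 => sg i.2 * p 1 by fun_prop)
  · rintro ⟨α, β⟩ _ p hp q hq ⟨hp1, hp2⟩ ⟨hq1, hq2⟩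
    have key : ∀ p : E2, Phi c b (p 0) (p 1) = Phi (fun σ τ => c (act α σ) (act β τ))
        (fun σ τ => b (act α σ) (act β τ)) (sg α * p 0) (sg β * p 1) := by
      intro p
      rw [← Phi_symm]
      have e1 : sg α * (sg α * p 0) = p 0 := by
        rw [← mul_assoc, ← sq, sg_sq, one_mul]
      have e2 : sg β * (sg β * p 1) = p 1 := by
        rw [← mul_assoc, ← sq, sg_sq, one_mul]
      rw [e1, e2]
    have habs : ∀ (γ : Bool) (t : ℝ), |t| ≤ 11 / 10 → sg γ * t ≤ 11 / 10 := by
      intro γ t ht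
      rw [abs_le] at ht
      cases γ <;> simp <;> linarith
    simp only at hp1 hp2 hq1 hq2
    rw [key p, key q]
    rw [Phi_Dp _ _ hp1 (habs _ _ hp.1) hp2 (habs _ _ hp.2),
      Phi_Dp _ _ hq1 (habs _ _ hq.1) hq2 (habs _ _ hq.2)]
    have h1 : refl α β p ∈ Dp := by
      refine ⟨⟨?_, ?_⟩, ?_, ?_⟩ <;> simp only [refl, PiLp.toLp_apply, Matrix.cons_val_zero,
        Matrix.cons_val_one, Matrix.cons_val_fin_one]
      · exact hp1
      · exact habs _ _ hp.1
      · exact hp2
      · exact habs _ _ hp.2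
    have h2 : refl α β q ∈ Dp := by
      refine ⟨⟨?_, ?_⟩, ?_, ?_⟩ <;> simp only [refl, PiLp.toLp_apply, Matrix.cons_val_zero,
        Matrix.cons_val_one, Matrix.cons_val_fin_one]
      · exact hq1
      · exact habs _ _ hq.1
      · exact hq2
      · exact habs _ _ hq.2
    have h3 := lip_psi (c (act α true) (act β true)) (c (act α false) (act β true))
      (c (act α false) (act β false)) (c (act α true) (act β false)) (b (act α true) (act β true))
      (hc _ _) (hc _ _) (hc _ _) (hc _ _) (hb _ _) _ h1 _ h2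
    rw [dist_refl] at h3
    simp only [refl, PiLp.toLp_apply, Matrix.cons_val_zero, Matrix.cons_val_one,
      Matrix.cons_val_fin_one] at h3
    linarith
  · intro p _
    have key : ∀ t : ℝ, ∃ γ : Bool, 0 ≤ sg γ * t := by
      intro t
      rcases le_total 0 t with ht | ht
      · exact ⟨true, by simpa using ht⟩
      · exact ⟨false, by simpa using ht⟩
    obtain ⟨α, hα⟩ := key (p 0)
    obtain ⟨β, hβ⟩ := key (p 1)
    exact ⟨(α, β), Finset.mem_univ _, hα, hβ⟩

/-- clamp to `[-1.1, 1.1]` -/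
noncomputable def cl (t : ℝ) : ℝ := max (-(11 / 10)) (min t (11 / 10))

lemma abs_cl (t : ℝ) : |cl t| ≤ 11 / 10 := by
  rw [abs_le]
  exact ⟨le_max_left _ _, max_le (by norm_num) (min_le_right _ _)⟩

lemma cl_eq {t : ℝ} (ht : |t| ≤ 11 / 10) : cl t = t := by
  rw [abs_le] at ht
  unfold cl
  rw [min_eq_left ht.2, max_eq_right ht.1]

lemma abs_cl_sub (t u : ℝ) : |cl t - cl u| ≤ |t - u| := by
  unfold cl
  calc |max (-(11 / 10)) (min t (11 / 10)) - max (-(11 / 10)) (min u (11 / 10))|
      ≤ |min t (11 / 10) - min u (11 / 10)| := by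
        rw [max_comm (-(11 / 10)) (min t _), max_comm (-(11 / 10)) (min u _)]
        exact abs_max_sub_max_le_abs _ _ _
    _ ≤ |t - u| := by
        have := abs_min_sub_min_le_max t (11 / 10) u (11 / 10)
        simpa using this

/-- clamp to the square -/
noncomputable def clamp (p : E2) : E2 := !₂[cl (p 0), cl (p 1)]

@[simp] lemma clamp_zero (p : E2) : clamp p 0 = cl (p 0) := rfl
@[simp] lemma clamp_one (p : E2) : clamp p 1 = cl (p 1) := rfl

lemma clamp_mem (p : E2) : clamp p ∈ Dm := ⟨abs_cl _, abs_cl _⟩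

lemma dist_clamp (p q : E2) : dist (clamp p) (clamp q) ≤ dist p q := by
  rw [dist_eq2, dist_eq2]
  apply Real.sqrt_le_sqrt
  simp only [clamp_zero, clamp_one]
  exact add_le_add (sq_le_sq.2 (abs_cl_sub _ _)) (sq_le_sq.2 (abs_cl_sub _ _))

/-- the calibration functions; `(σ, τ, false)` is the inner and `(σ, τ, true)` the outer terminal of
the corner `(σ, τ)`. -/
noncomputable def phi (i : Bool × Bool × Bool) (x y : ℝ) : ℝ :=
  if i.2.2 then psi (sg i.1) (sg i.2.1) x y - h (sg i.1 * x) (sg i.2.1 * y)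
  else h (sg i.1 * x) (sg i.2.1 * y)

lemma sum_phi (I : Finset (Bool × Bool × Bool)) (x y : ℝ) :
    ∑ i ∈ I, phi i x y = Phi (fun σ τ => if (σ, τ, true) ∈ I then 1 else 0)
      (fun σ τ => if (σ, τ, false) ∈ I then 1 else 0) x y := by
  classical
  have h1 : ∑ i ∈ I, phi i x y = ∑ i : Bool × Bool × Bool, if i ∈ I then phi i x y else 0 := by
    rw [Finset.sum_ite_mem, Finset.univ_inter]
  rw [h1]
  simp only [Fintype.sum_prod_type, Fintype.sum_bool, Phi, phi, if_true, Bool.false_eq_true,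
    if_false]
  ring_nf
  simp only [ite_mul, one_mul, zero_mul, mul_ite, mul_one, mul_zero]
  split_ifs <;> ring

lemma sum_phi_univ (x y : ℝ) : ∑ i, phi i x y = 0 := by
  simp only [Fintype.sum_prod_type, Fintype.sum_bool, phi, psi, if_true, Bool.false_eq_true,
    if_false, sg_true, sg_false]
  ring

/-- **Calibration bound**: for a connected set `W` containing eight points `P i`. -/
theorem calib_bound {W : Set E2} (hW : IsPreconnected W) (p : Bool × Bool × Bool → E2)
    (hp : ∀ i, p i ∈ W) :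
    ENNReal.ofReal (∑ i, phi i (cl (p i 0)) (cl (p i 1))) ≤
      MeasureTheory.Measure.hausdorffMeasure 1 W := by
  have h1 := Pool.Agent.H258R2.Calib.calib (X := E2) hW
    (fun (i : Bool × Bool × Bool) q => -phi i (cl (q 0)) (cl (q 1))) ?_ p hp
    (p (true, true, true)) (hp _)
  · refine le_trans (ENNReal.ofReal_le_ofReal (le_of_eq ?_)) h1
    rw [Finset.sum_sub_distrib, Finset.sum_neg_distrib, Finset.sum_neg_distrib, sum_phi_univ]
    ring
  · intro I x y
    have h2 : ∑ i ∈ I, (-phi i (cl (x 0)) (cl (x 1)) - -phi i (cl (y 0)) (cl (y 1))) =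
        ∑ i ∈ I, phi i (cl (y 0)) (cl (y 1)) - ∑ i ∈ I, phi i (cl (x 0)) (cl (x 1)) := by
      rw [← Finset.sum_sub_distrib]
      exact Finset.sum_congr rfl fun i _ => by ring
    rw [h2, sum_phi, sum_phi]
    have h3 := Phi_lip (fun σ τ => if (σ, τ, true) ∈ I then 1 else 0)
      (fun σ τ => if (σ, τ, false) ∈ I then 1 else 0) (fun σ τ => by
        by_cases hh : (σ, τ, true) ∈ I <;> simp [hh]) (fun σ τ => by
        by_cases hh : (σ, τ, false) ∈ I <;> simp [hh]) (clamp y) (clamp_mem y) (clamp x)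
        (clamp_mem x)
    simp only [clamp_zero, clamp_one] at h3
    refine h3.trans ?_
    rw [dist_comm x y]
    exact dist_clamp y x

/-- Value of the function of an outer terminal. -/
lemma psi_sub_h {x y : ℝ} (hx : |x| ≤ 11 / 10) (hy : |y| ≤ 11 / 10) (hx0 : 0 ≤ x) (hy0 : 0 ≤ y)
    (hf : -(1 / 50) ≤ (s - 1) / 2 * (x - y)) : (x + s * y) / 2 ≤ psi 1 1 x y - h x y := by
  have e2 := lt_s
  rw [abs_le] at hx hy
  have e1 := g_neg_left hx0 hy.2
  have e3 := g_neg_right hx0 hy0
  have e4 : g (-x) (-y) = 0 := g_neg_left hx0 (by linarith)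
  have e7 := abs_min hx0 hy0
  have h1 : psi 1 1 x y = (x + y + (s - 1) * min x y) / 2 := by
    simp only [psi, Q, R, e1, e3, e4, e7]; ring
  rw [h1]
  rcases le_total x y with hxy | hxy
  · rw [min_eq_left hxy]
    have h2 : h x y ≤ (s - 1) / 2 * (x - y) := by
      unfold h
      apply max_le hf
      exact (min_le_right _ _).trans (min_le_left _ _)
    nlinarith
  · rw [min_eq_right hxy]
    have h2 : h x y ≤ 0 := by
      unfold h
      apply max_le (by norm_num)
      exact min_le_left _ _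
    nlinarith

/-- Value of the function of an inner terminal. -/
lemma h_nonneg {x y : ℝ} (hxy : y ≤ x) (hE : 0 ≤ (x + s * y) / 2 - (1 + s) / 2 + 1 / 50) :
    0 ≤ h x y := by
  have e2 := lt_s
  unfold h
  refine le_max_of_le_right (le_min le_rfl (le_min ?_ hE))
  exact mul_nonneg (by linarith) (by linarith)

/-- **The lower bound.** `P σ τ` are points near the corners `(σ, τ)` on the right side of the
diagonal, and `P' σ τ` are points beyond the corners. -/
theorem lower_bound {W : Set E2} (hW : IsPreconnected W) (P P' : Bool → Bool → E2)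
    (hP : ∀ σ τ, P σ τ ∈ W) (hP' : ∀ σ τ, P' σ τ ∈ W) (L : ℝ)
    (h0 : ∀ σ τ, |P σ τ 0| ≤ 11 / 10 ∧ |P σ τ 1| ≤ 11 / 10)
    (h0' : ∀ σ τ, |P' σ τ 0| ≤ 11 / 10 ∧ |P' σ τ 1| ≤ 11 / 10)
    (h1 : ∀ σ τ, sg τ * P σ τ 1 ≤ sg σ * P σ τ 0 ∧
      0 ≤ (sg σ * P σ τ 0 + s * (sg τ * P σ τ 1)) / 2 - (1 + s) / 2 + 1 / 50)
    (h2 : ∀ σ τ, 0 ≤ sg σ * P' σ τ 0 ∧ 0 ≤ sg τ * P' σ τ 1 ∧
      -(1 / 50) ≤ (s - 1) / 2 * (sg σ * P' σ τ 0 - sg τ * P' σ τ 1) ∧
      L ≤ (sg σ * P' σ τ 0 + s * (sg τ * P' σ τ 1)) / 2) :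
    ENNReal.ofReal (4 * L) ≤ MeasureTheory.Measure.hausdorffMeasure 1 W := by
  have key := calib_bound hW (fun i => if i.2.2 then P' i.1 i.2.1 else P i.1 i.2.1) (by
    rintro ⟨σ, τ, o⟩
    cases o
    · simpa using hP σ τ
    · simpa using hP' σ τ)
  refine le_trans (ENNReal.ofReal_le_ofReal ?_) key
  have e1 : ∀ σ τ, 0 ≤ phi (σ, τ, false) (cl (P σ τ 0)) (cl (P σ τ 1)) := by
    intro σ τ
    rw [cl_eq (h0 σ τ).1, cl_eq (h0 σ τ).2]
    simp only [phi, Bool.false_eq_true, if_false]
    exact h_nonneg (h1 σ τ).1 (h1 σ τ).2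
  have hsgabs : ∀ (σ : Bool) (t : ℝ), |sg σ * t| = |t| := by
    intro σ t
    cases σ <;> simp
  have e2 : ∀ σ τ, L ≤ phi (σ, τ, true) (cl (P' σ τ 0)) (cl (P' σ τ 1)) := by
    intro σ τ
    rw [cl_eq (h0' σ τ).1, cl_eq (h0' σ τ).2]
    obtain ⟨k1, k2, k3, k4⟩ := h2 σ τ
    refine k4.trans ?_
    have k5 := psi_sub_h (x := sg σ * P' σ τ 0) (y := sg τ * P' σ τ 1)
      (by rw [hsgabs]; exact (h0' σ τ).1) (by rw [hsgabs]; exact (h0' σ τ).2) k1 k2 k3
    refine k5.trans (le_of_eq ?_)
    simp only [phi, if_true]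
    congr 1
    -- symmetry of `psi`
    have a1 : ∀ x y : ℝ, |-x + y| = |x - y| := fun x y => by rw [← abs_neg]; congr 1; ring
    have a2 : ∀ x y : ℝ, |-x - y| = |x + y| := fun x y => by rw [← abs_neg]; congr 1; ring
    have a3 : ∀ x y : ℝ, |x + -y| = |x - y| := fun x y => by congr 1
    have a4 : ∀ x y : ℝ, |x - -y| = |x + y| := fun x y => by congr 1; ring
    cases σ <;> cases τ <;>
      simp only [psi, Q, R, sg_true, sg_false, one_mul, neg_mul, neg_neg, mul_neg, mul_one, a1, a2,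
        a3, a4] <;> ring_nf
  simp only [Fintype.sum_prod_type, Fintype.sum_bool, if_true, Bool.false_eq_true, if_false]
  have := e1 true true
  have := e1 true false
  have := e1 false true
  have := e1 false false
  have := e2 true true
  have := e2 true false
  have := e2 false true
  have := e2 false false
  linarith

end Pool.Agent.N545.ST
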