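import Pool.Agent.N545.ST.Fun

/-!
# All the combinations of the calibration functions are `1`-Lipschitz in the first quadrant
-/

set_option autoImplicit false

open Set Filter Topology

namespace Pool.Agent.N545.ST

lemma lip_psi (c1 c2 c3 c4 b1 : ℝ) (h1 : c1 = 0 ∨ c1 = 1) (h2 : c2 = 0 ∨ c2 = 1)
    (h3 : c3 = 0 ∨ c3 = 1) (h4 : c4 = 0 ∨ c4 = 1) (h5 : b1 = 0 ∨ b1 = 1) :
    ∀ p ∈ Dp, ∀ q ∈ Dp,
      F ((c1 - c2 - c3 + c4) / 2) ((c1 + c2 - c3 - c4) / 2) ((c1 - c2 + c3 - c4) / 2 * (s - 1))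
        ((c1 - c2 + c3 - c4) / 2 - (c1 + c2 - c3 - c4) / 2) (b1 - c1) (p 0) (p 1) -
      F ((c1 - c2 - c3 + c4) / 2) ((c1 + c2 - c3 - c4) / 2) ((c1 - c2 + c3 - c4) / 2 * (s - 1))
        ((c1 - c2 + c3 - c4) / 2 - (c1 + c2 - c3 - c4) / 2) (b1 - c1) (q 0) (q 1) ≤ dist p q := by
  have e1 := s_sq
  have e2 := lt_s
  have e3 := s_lt
  rcases h1 with rfl | rfl <;> rcases h2 with rfl | rfl <;> rcases h3 with rfl | rfl <;>
    rcases h4 with rfl | rfl <;> rcases h5 with rfl | rfl <;> apply lip_F <;> nlinarith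

end Pool.Agent.N545.ST
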