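import Pool.Agent.N545.ST.Sel

/-!
# The calibration functions in the first quadrant
-/

set_option autoImplicit false

open Set Filter Topology

namespace Pool.Agent.N545.ST

/-- The Euclidean plane. -/
abbrev E2 : Type := EuclideanSpace ℝ (Fin 2)

lemma dist_eq2 (p q : E2) : dist p q = Real.sqrt ((p 0 - q 0) ^ 2 + (p 1 - q 1) ^ 2) := by
  rw [EuclideanSpace.dist_eq, Fin.sum_univ_two, Real.dist_eq, Real.dist_eq, sq_abs, sq_abs]

lemma aff_lip (α β γ : ℝ) (h : α ^ 2 + β ^ 2 ≤ 1) (p q : E2) :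
    (α * p 0 + β * p 1 + γ) - (α * q 0 + β * q 1 + γ) ≤ dist p q := by
  rw [dist_eq2]
  apply Real.le_sqrt_of_sq_le
  have h1 : ((α * p 0 + β * p 1 + γ) - (α * q 0 + β * q 1 + γ)) ^ 2 ≤
      (α ^ 2 + β ^ 2) * ((p 0 - q 0) ^ 2 + (p 1 - q 1) ^ 2) := by
    nlinarith [sq_nonneg (α * (p 1 - q 1) - β * (p 0 - q 0))]
  refine h1.trans ?_
  have h2 : 0 ≤ (p 0 - q 0) ^ 2 + (p 1 - q 1) ^ 2 := by positivity
  nlinarith

/-- `√3` -/
noncomputable def s : ℝ := Real.sqrt 3

lemma s_sq : s ^ 2 = 3 := Real.sq_sqrt (by norm_num)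

lemma s_lt : s < 1.7321 := by
  rw [s, Real.sqrt_lt' (by norm_num)]; norm_num

lemma lt_s : 1.732 < s := by
  rw [s, Real.lt_sqrt (by norm_num)]; norm_num

/-- transfer function -/
noncomputable def g (x y : ℝ) : ℝ := max 0 (min ((y - x) / 2) (((2 - s) * x + y) / 2 - 29 / 50))

/-- the function of the inner terminal of the corner `(1, 1)` -/
noncomputable def h (x y : ℝ) : ℝ :=
  max (-(1 / 50)) (min 0 (min ((s - 1) / 2 * (x - y)) ((x + s * y) / 2 - (1 + s) / 2 + 1 / 50)))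

/-- The possible values of the pair `(g, h)` in the square `[0, 1.1]²`. -/
lemma states (x y : ℝ) (hx0 : 0 ≤ x) (hx1 : x ≤ 11 / 10) (hy0 : 0 ≤ y) (hy1 : y ≤ 11 / 10) :
    (y ≤ x ∧ g x y = 0 ∧ (h x y = -(1 / 50) ∨ h x y = 0 ∨
      h x y = (x + s * y) / 2 - (1 + s) / 2 + 1 / 50)) ∨
    (x ≤ y ∧ ((h x y = -(1 / 50) ∧ (g x y = 0 ∨ g x y = (y - x) / 2 ∨
        g x y = ((2 - s) * x + y) / 2 - 29 / 50)) ∨
      (g x y = (y - x) / 2 ∧ (h x y = (s - 1) / 2 * (x - y) ∨
        h x y = (x + s * y) / 2 - (1 + s) / 2 + 1 / 50)))) := by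
  have h1 := s_lt
  have h2 := lt_s
  rcases le_total y x with hxy | hxy
  · left
    refine ⟨hxy, ?_, ?_⟩
    · unfold g
      rw [max_eq_left]
      exact (min_le_left _ _).trans (by linarith)
    · unfold h
      have h3 : 0 ≤ (s - 1) / 2 * (x - y) := mul_nonneg (by linarith) (by linarith)
      have h4 : min (0 : ℝ) (min ((s - 1) / 2 * (x - y)) ((x + s * y) / 2 - (1 + s) / 2 + 1 / 50))
          = min 0 ((x + s * y) / 2 - (1 + s) / 2 + 1 / 50) := by
        rw [← min_assoc, min_eq_left h3]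
      rw [h4]
      rcases max_choice (-(1 / 50) : ℝ) (min 0 ((x + s * y) / 2 - (1 + s) / 2 + 1 / 50)) with h5 | h5
      · left; exact h5
      · rcases min_choice (0 : ℝ) ((x + s * y) / 2 - (1 + s) / 2 + 1 / 50) with h6 | h6
        · right; left; rw [h5, h6]
        · right; right; rw [h5, h6]
  · right
    refine ⟨hxy, ?_⟩
    by_cases hh : h x y = -(1 / 50)
    · left
      refine ⟨hh, ?_⟩
      unfold g
      rcases max_choice (0 : ℝ) (min ((y - x) / 2) (((2 - s) * x + y) / 2 - 29 / 50)) with h5 | h5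
      · left; exact h5
      · rcases min_choice ((y - x) / 2) (((2 - s) * x + y) / 2 - 29 / 50) with h6 | h6
        · right; left; rw [h5, h6]
        · right; right; rw [h5, h6]
    · right
      -- `h` is not constant: we are near the corner
      have h3 : (s - 1) / 2 * (x - y) ≤ 0 :=
        mul_nonpos_of_nonneg_of_nonpos (by linarith) (by linarith)
      have hm : h x y = min 0 (min ((s - 1) / 2 * (x - y))
          ((x + s * y) / 2 - (1 + s) / 2 + 1 / 50)) := by
        rcases max_choice (-(1 / 50) : ℝ) (min 0 (min ((s - 1) / 2 * (x - y))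
          ((x + s * y) / 2 - (1 + s) / 2 + 1 / 50))) with h5 | h5
        · exact absurd h5 hh
        · exact h5
      have hge : -(1 / 50) ≤ h x y := le_max_left _ _
      have hlt : -(1 / 50) < min 0 (min ((s - 1) / 2 * (x - y))
          ((x + s * y) / 2 - (1 + s) / 2 + 1 / 50)) := by
        rw [← hm]
        exact lt_of_le_of_ne hge (Ne.symm hh)
      rw [lt_min_iff, lt_min_iff] at hlt
      obtain ⟨-, ha, hb⟩ := hlt
      have h4 : min (0 : ℝ) (min ((s - 1) / 2 * (x - y)) ((x + s * y) / 2 - (1 + s) / 2 + 1 / 50))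
          = min ((s - 1) / 2 * (x - y)) ((x + s * y) / 2 - (1 + s) / 2 + 1 / 50) := by
        rw [min_eq_right]
        exact (min_le_left _ _).trans h3
      have hv : y - x < 547 / 10000 := by nlinarith
      constructor
      · unfold g
        have h6 : (y - x) / 2 ≤ ((2 - s) * x + y) / 2 - 29 / 50 := by
          nlinarith
        rw [min_eq_left h6, max_eq_right]
        linarith
      · rw [hm, h4]
        exact min_choice _ _

/-- The general function in the first quadrant. -/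
noncomputable def F (a b m n k : ℝ) (x y : ℝ) : ℝ := a * x + b * y + m * min x y + n * g x y + k * h x y

/-- The square `[0, 1.1]²`. -/
def Dp : Set E2 := {p | (0 ≤ p 0 ∧ p 0 ≤ 11 / 10) ∧ (0 ≤ p 1 ∧ p 1 ≤ 11 / 10)}

lemma convex_Dp : Convex ℝ Dp := by
  intro p hp q hq a b ha hb hab
  obtain ⟨⟨h1, h2⟩, h3, h4⟩ := hp
  obtain ⟨⟨k1, k2⟩, k3, k4⟩ := hq
  have e : b = 1 - a := by linarith
  simp only [Dp, mem_ofPred_eq, PiLp.add_apply, PiLp.smul_apply, smul_eq_mul]
  subst e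
  refine ⟨⟨?_, ?_⟩, ?_, ?_⟩ <;> nlinarith

lemma continuous_g : Continuous fun p : ℝ × ℝ => g p.1 p.2 := by
  unfold g; fun_prop

lemma continuous_h : Continuous fun p : ℝ × ℝ => h p.1 p.2 := by
  unfold h; fun_prop

lemma lip_F (a b m n k : ℝ)
    (c1 : a ^ 2 + (b + m) ^ 2 ≤ 1)
    (c2 : (a + k / 2) ^ 2 + (b + m + k * s / 2) ^ 2 ≤ 1)
    (c3 : (a + m) ^ 2 + b ^ 2 ≤ 1)
    (c4 : (a + m - n / 2) ^ 2 + (b + n / 2) ^ 2 ≤ 1)
    (c5 : (a + m + n * (2 - s) / 2) ^ 2 + (b + n / 2) ^ 2 ≤ 1)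
    (c6 : (a + m - n / 2 + k * (s - 1) / 2) ^ 2 + (b + n / 2 - k * (s - 1) / 2) ^ 2 ≤ 1)
    (c7 : (a + m - n / 2 + k / 2) ^ 2 + (b + n / 2 + k * s / 2) ^ 2 ≤ 1) :
    ∀ p ∈ Dp, ∀ q ∈ Dp, F a b m n k (p 0) (p 1) - F a b m n k (q 0) (q 1) ≤ dist p q := by
  set T : Finset (ℝ × ℝ × ℝ) :=
    {(a, b + m, -(k / 50)), (a, b + m, 0),
     (a + k / 2, b + m + k * s / 2, k * (-(1 + s) / 2 + 1 / 50)),
     (a + m, b, -(k / 50)), (a + m - n / 2, b + n / 2, -(k / 50)),
     (a + m + n * (2 - s) / 2, b + n / 2, -(n * (29 / 50)) - k / 50),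
     (a + m - n / 2 + k * (s - 1) / 2, b + n / 2 - k * (s - 1) / 2, 0),
     (a + m - n / 2 + k / 2, b + n / 2 + k * s / 2, k * (-(1 + s) / 2 + 1 / 50))} with hT
  refine lip_of_selection convex_Dp (f := fun p : E2 => F a b m n k (p 0) (p 1)) ?_ T
    (fun t p => t.1 * p 0 + t.2.1 * p 1 + t.2.2) ?_ ?_
  · apply Continuous.continuousOn
    have h1 : Continuous fun p : E2 => g (p 0) (p 1) :=
      continuous_g.comp (f := fun p : E2 => (p 0, p 1)) (by fun_prop)
    have h2 : Continuous fun p : E2 => h (p 0) (p 1) :=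
      continuous_h.comp (f := fun p : E2 => (p 0, p 1)) (by fun_prop)
    unfold F
    fun_prop
  · intro t ht p q
    apply aff_lip
    simp only [hT, Finset.mem_insert, Finset.mem_singleton] at ht
    rcases ht with rfl | rfl | rfl | rfl | rfl | rfl | rfl | rfl <;> assumption
  · rintro p ⟨⟨h1, h2⟩, h3, h4⟩
    rcases states (p 0) (p 1) h1 h2 h3 h4 with ⟨hxy, hg, hh⟩ | ⟨hxy, ⟨hh, hg⟩ | ⟨hg, hh⟩⟩
    · have hm : min (p 0) (p 1) = p 1 := min_eq_right hxy
      rcases hh with hh | hh | hh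
      · exact ⟨(a, b + m, -(k / 50)), by simp [hT], by
          simp only [F, hg, hh, hm]; ring⟩
      · exact ⟨(a, b + m, 0), by simp [hT], by
          simp only [F, hg, hh, hm]; ring⟩
      · exact ⟨(a + k / 2, b + m + k * s / 2, k * (-(1 + s) / 2 + 1 / 50)), by simp [hT], by
          simp only [F, hg, hh, hm]; ring⟩
    · have hm : min (p 0) (p 1) = p 0 := min_eq_left hxy
      rcases hg with hg | hg | hg
      · exact ⟨(a + m, b, -(k / 50)), by simp [hT], by
          simp only [F, hg, hh, hm]; ring⟩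
      · exact ⟨(a + m - n / 2, b + n / 2, -(k / 50)), by simp [hT], by
          simp only [F, hg, hh, hm]; ring⟩
      · exact ⟨(a + m + n * (2 - s) / 2, b + n / 2, -(n * (29 / 50)) - k / 50), by simp [hT], by
          simp only [F, hg, hh, hm]; ring⟩
    · have hm : min (p 0) (p 1) = p 0 := min_eq_left hxy
      rcases hh with hh | hh
      · exact ⟨(a + m - n / 2 + k * (s - 1) / 2, b + n / 2 - k * (s - 1) / 2, 0), by simp [hT], by
          simp only [F, hg, hh, hm]; ring⟩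
      · exact ⟨(a + m - n / 2 + k / 2, b + n / 2 + k * s / 2, k * (-(1 + s) / 2 + 1 / 50)),
          by simp [hT], by simp only [F, hg, hh, hm]; ring⟩

end Pool.Agent.N545.ST
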