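import Pool.Agent.N545.ST.Trees

/-!
# The example
-/

set_option autoImplicit false

open Set Filter Topology MeasureTheory

namespace Pool.Agent.N545.ST

/-- Connected sets containing the eight terminals are long. -/
lemma lower_ter {W : Set E2} (hW : IsPreconnected W) (h : range ter ⊆ W) :
    ENNReal.ofReal (4 * ((1 + s) / 2 + 1 / 10)) ≤ Measure.hausdorffMeasure 1 W := by
  have e1 := s_sq
  have e2 := lt_s
  have e3 := s_lt
  refine lower_bound hW ca cb (fun σ τ => h ⟨(σ, τ, false), rfl⟩)
    (fun σ τ => h ⟨(σ, τ, true), rfl⟩) _ ?_ ?_ ?_ ?_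
  · intro σ τ
    cases σ <;> cases τ <;> simp only [ca0, ca1, sg_true, sg_false, abs_le] <;>
      refine ⟨⟨?_, ?_⟩, ?_, ?_⟩ <;> norm_num
  · intro σ τ
    cases σ <;> cases τ <;> simp only [cb0, cb1, sg_true, sg_false, abs_le] <;>
      refine ⟨⟨?_, ?_⟩, ?_, ?_⟩ <;> linarith
  · intro σ τ
    cases σ <;> cases τ <;> simp only [ca0, ca1, sg_true, sg_false] <;>
      refine ⟨?_, ?_⟩ <;> nlinarith
  · intro σ τ
    cases σ <;> cases τ <;> simp only [cb0, cb1, sg_true, sg_false] <;>
      refine ⟨?_, ?_, ?_, ?_⟩ <;> nlinarith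

lemma coord_le_dist (p q : E2) (i : Fin 2) : |p i - q i| ≤ dist p q := by
  rw [dist_eq2]
  apply Real.le_sqrt_of_sq_le
  rw [sq_abs]
  fin_cases i
  · simp only [Fin.zero_eta]
    nlinarith [sq_nonneg (p 1 - q 1)]
  · simp only [Fin.mk_one]
    nlinarith [sq_nonneg (p 0 - q 0)]

/-- Connected sets which meet the eight balls are long. -/
lemma lower_cen {W : Set E2} (hc : IsCompact W) (hW : IsConnected W)
    (h : ∀ y ∈ range cen, Metric.infDist y W ≤ 1 / 1000) :
    ENNReal.ofReal (4 * ((1 + s) / 2 + 1 / 10)) ≤ Measure.hausdorffMeasure 1 W := by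
  have e1 := s_sq
  have e2 := lt_s
  have e3 := s_lt
  have hex : ∀ i, ∃ z ∈ W, dist (cen i) z ≤ 1 / 1000 := by
    intro i
    obtain ⟨z, hz, hd⟩ := hc.exists_infDist_eq_dist hW.nonempty (cen i)
    exact ⟨z, hz, hd ▸ h _ ⟨i, rfl⟩⟩
  choose z hz hd using hex
  refine lower_bound hW.isPreconnected (fun σ τ => z (σ, τ, false)) (fun σ τ => z (σ, τ, true))
    (fun σ τ => hz _) (fun σ τ => hz _) _ ?_ ?_ ?_ ?_
  · intro σ τ
    have h0 := (coord_le_dist (cen (σ, τ, false)) (z (σ, τ, false)) 0).trans (hd _)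
    have h1 := (coord_le_dist (cen (σ, τ, false)) (z (σ, τ, false)) 1).trans (hd _)
    rw [abs_le] at h0 h1
    cases σ <;> cases τ <;>
      simp only [cen, Bool.false_eq_true, if_false, ma0, ma1, sg_true, sg_false, abs_le]
        at h0 h1 ⊢ <;>
      refine ⟨⟨?_, ?_⟩, ?_, ?_⟩ <;> linarith [h0.1, h0.2, h1.1, h1.2]
  · intro σ τ
    have h0 := (coord_le_dist (cen (σ, τ, true)) (z (σ, τ, true)) 0).trans (hd _)
    have h1 := (coord_le_dist (cen (σ, τ, true)) (z (σ, τ, true)) 1).trans (hd _)
    rw [abs_le] at h0 h1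
    cases σ <;> cases τ <;>
      simp only [cen, if_true, mb0, mb1, sg_true, sg_false, abs_le]
        at h0 h1 ⊢ <;>
      refine ⟨⟨?_, ?_⟩, ?_, ?_⟩ <;> linarith [h0.1, h0.2, h1.1, h1.2]
  · intro σ τ
    have h0 := (coord_le_dist (cen (σ, τ, false)) (z (σ, τ, false)) 0).trans (hd _)
    have h1 := (coord_le_dist (cen (σ, τ, false)) (z (σ, τ, false)) 1).trans (hd _)
    rw [abs_le] at h0 h1
    cases σ <;> cases τ <;>
      simp only [cen, Bool.false_eq_true, if_false, ma0, ma1, sg_true, sg_false]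
        at h0 h1 ⊢ <;>
      refine ⟨?_, ?_⟩ <;> nlinarith [h0.1, h0.2, h1.1, h1.2]
  · intro σ τ
    have h0 := (coord_le_dist (cen (σ, τ, true)) (z (σ, τ, true)) 0).trans (hd _)
    have h1 := (coord_le_dist (cen (σ, τ, true)) (z (σ, τ, true)) 1).trans (hd _)
    have h2 := hd (σ, τ, true)
    rw [abs_le] at h0 h1
    have h3 := aff_lip (sg σ / 2) (s * sg τ / 2) 0 (by
      have := sg_sq σ
      have := sg_sq τ
      nlinarith) (cen (σ, τ, true)) (z (σ, τ, true))
    have h4 := h3.trans h2
    cases σ <;> cases τ <;>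
      simp only [cen, if_true, mb0, mb1, sg_true, sg_false]
        at h0 h1 h4 ⊢ <;>
      refine ⟨?_, ?_, ?_, ?_⟩ <;> nlinarith [h0.1, h0.2, h1.1, h1.2]

/-! ### The condition on segments -/

/-- The outer terminals are exposed points of the first tree. -/
lemma exposed_TS (σ τ : Bool) (z : E2) (hz : z ∈ TS) :
    sg σ * z 0 + s * (sg τ * z 1) ≤ 6 / 5 + s ∧
      (sg σ * z 0 + s * (sg τ * z 1) = 6 / 5 + s → z = cb σ τ) := by
  have e1 := s_sq
  have e2 := lt_s
  have e3 := s_lt
  obtain ⟨⟨α, β⟩, h2 | h2⟩ := mem_iUnion.1 hz <;> rw [segment_eq_image'] at h2 <;>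
    obtain ⟨θ, ⟨t0, t1⟩, rfl⟩ := h2
  · have key : sg σ * (sp false + θ • (sp true - sp false)) 0 +
        s * (sg τ * (sp false + θ • (sp true - sp false)) 1) < 6 / 5 + s := by
      cases σ <;> cases τ <;>
      simp only [PiLp.add_apply, PiLp.smul_apply, PiLp.sub_apply, sp0, sp1, smul_eq_mul, sg_true,
        sg_false] <;> nlinarith
    exact ⟨key.le, fun h => absurd h key.ne⟩
  · simp only at *
    have e : sg σ * (sp α + θ • (cb α β - sp α)) 0 + s * (sg τ * (sp α + θ • (cb α β - sp α)) 1) =
        (1 - θ) * (sg σ * sg α * (1 - s / 3)) +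
          θ * (sg σ * sg α * (1 + 1 / 20) + s * (sg τ * sg β * (1 + s / 20))) := by
      simp only [PiLp.add_apply, PiLp.smul_apply, PiLp.sub_apply, sp0, sp1, cb0, cb1, smul_eq_mul]
      ring
    have hA : sg σ * sg α * (1 - s / 3) < 6 / 5 + s := by
      cases σ <;> cases α <;> simp only [sg_true, sg_false] <;> linarith
    by_cases hs : σ = α ∧ τ = β
    · obtain ⟨rfl, rfl⟩ := hs
      have hB : sg σ * sg σ * (1 + 1 / 20) + s * (sg τ * sg τ * (1 + s / 20)) = 6 / 5 + s := by
        cases σ <;> cases τ <;> simp only [sg_true, sg_false] <;> nlinarith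
      rw [e, hB]
      constructor
      · nlinarith
      · intro h
        have hθ : θ = 1 := by
          by_contra hne
          have : θ < 1 := lt_of_le_of_ne t1 hne
          nlinarith
        rw [hθ, one_smul]; abel
    · have hB : sg σ * sg α * (1 + 1 / 20) + s * (sg τ * sg β * (1 + s / 20)) < 6 / 5 + s := by
        cases σ <;> cases α <;> cases τ <;> cases β <;> simp only [sg_true, sg_false] <;>
          first | (exfalso; exact hs ⟨rfl, rfl⟩) | nlinarith
      rw [e]
      have key : (1 - θ) * (sg σ * sg α * (1 - s / 3)) +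
          θ * (sg σ * sg α * (1 + 1 / 20) + s * (sg τ * sg β * (1 + s / 20))) < 6 / 5 + s := by
        rcases eq_or_lt_of_le t0 with ht | ht
        · rw [← ht]; linarith
        · nlinarith [mul_lt_mul_of_pos_left hB ht,
            mul_le_mul_of_nonneg_left hA.le (sub_nonneg.2 t1)]
      exact ⟨key.le, fun h => absurd h key.ne⟩

/-- Near the corner the second tree lies on one side of the diagonal. -/
lemma side_TT (σ τ : Bool) (z : E2) (hz : z ∈ TT) (h1 : 1 / 2 < sg σ * z 0 + sg τ * z 1) :
    sg σ * z 0 - sg τ * z 1 ≤ 0 ∧ (sg σ * z 0 - sg τ * z 1 = 0 → z = ca σ τ) := by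
  have e1 := s_sq
  have e2 := lt_s
  have e3 := s_lt
  obtain ⟨⟨α, β⟩, h2 | h2 | h2⟩ := mem_iUnion.1 hz <;> rw [segment_eq_image'] at h2 <;>
    obtain ⟨θ, ⟨t0, t1⟩, rfl⟩ := h2
  · exfalso
    cases σ <;> cases τ <;>
    simp only [PiLp.add_apply, PiLp.smul_apply, PiLp.sub_apply, tp0, tp1, smul_eq_mul, sg_true,
      sg_false] at h1 <;> nlinarith
  · simp only at *
    by_cases hs : σ = α ∧ τ = β
    · obtain ⟨rfl, rfl⟩ := hs
      have e : sg σ * (tp τ + θ • (ca σ τ - tp τ)) 0 - sg τ * (tp τ + θ • (ca σ τ - tp τ)) 1 =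
          (θ - 1) * (1 - s / 3) := by
        simp only [PiLp.add_apply, PiLp.smul_apply, PiLp.sub_apply, tp0, tp1, ca0, ca1, smul_eq_mul]
        have := sg_sq σ
        have := sg_sq τ
        cases σ <;> cases τ <;> simp only [sg_true, sg_false] <;> ring
      rw [e]
      constructor
      · nlinarith
      · intro h
        have hθ : θ = 1 := by
          rcases mul_eq_zero.1 h with h | h
          · linarith
          · exfalso; linarith
        rw [hθ, one_smul]; abel
    · exfalso
      cases σ <;> cases α <;> cases τ <;> cases β <;>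
        simp only [PiLp.add_apply, PiLp.smul_apply, PiLp.sub_apply, tp0, tp1, ca0, ca1, smul_eq_mul,
          sg_true, sg_false] at h1 <;>
        first | (exact hs ⟨rfl, rfl⟩) | nlinarith
  · simp only at *
    by_cases hs : σ = α ∧ τ = β
    · obtain ⟨rfl, rfl⟩ := hs
      have e : sg σ * (ca σ τ + θ • (cb σ τ - ca σ τ)) 0 - sg τ * (ca σ τ + θ • (cb σ τ - ca σ τ)) 1 =
          θ * (1 - s) / 20 := by
        simp only [PiLp.add_apply, PiLp.smul_apply, PiLp.sub_apply, cb0, cb1, ca0, ca1, smul_eq_mul]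
        cases σ <;> cases τ <;> simp only [sg_true, sg_false] <;> ring
      rw [e]
      constructor
      · nlinarith
      · intro h
        have hθ : θ = 0 := by
          by_contra hne
          have : 0 < θ := lt_of_le_of_ne t0 (Ne.symm hne)
          nlinarith
        rw [hθ, zero_smul, add_zero]
    · exfalso
      cases σ <;> cases α <;> cases τ <;> cases β <;>
        simp only [PiLp.add_apply, PiLp.smul_apply, PiLp.sub_apply, cb0, cb1, ca0, ca1, smul_eq_mul,
          sg_true, sg_false] at h1 <;>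
        first | (exact hs ⟨rfl, rfl⟩) | nlinarith

/-- No terminal lies in the relative interior of a segment of the first tree and in the relative
interior of a segment of the second tree. -/
lemma no_common : ¬ ∃ a ∈ range ter,
    (∃ x y : E2, x ≠ y ∧ segment ℝ x y ⊆ TS ∧ a ∈ openSegment ℝ x y) ∧
    (∃ x y : E2, x ≠ y ∧ segment ℝ x y ⊆ TT ∧ a ∈ openSegment ℝ x y) := by
  have e1 := s_sq
  rintro ⟨_, ⟨⟨σ, τ, o⟩, rfl⟩, ⟨x, y, hxy, hsub, ha⟩, ⟨x', y', hxy', hsub', ha'⟩⟩
  cases o
  · -- an inner terminal is not in the interior of a segment of the second tree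
    simp only [ter, Bool.false_eq_true, if_false] at ha'
    obtain ⟨α, β, hα, hβ, hab, hz⟩ := ha'
    have z0 := congrArg (fun p : E2 => p 0) hz
    have z1 := congrArg (fun p : E2 => p 1) hz
    simp only [PiLp.add_apply, PiLp.smul_apply, smul_eq_mul, ca0, ca1] at z0 z1
    have s1 := sg_sq σ
    have s2 := sg_sq τ
    set A := sg σ * (x' 0 - sg σ) + sg τ * (x' 1 - sg τ) with hA
    set B := sg σ * (y' 0 - sg σ) + sg τ * (y' 1 - sg τ) with hB
    set t := 1 / (1 + |A| + |B|) with ht
    have hpos : 0 < 1 + |A| + |B| := by positivity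
    have ht0 : 0 < t := by positivity
    have ht1 : t ≤ 1 := by
      rw [ht, div_le_one hpos]
      linarith [abs_nonneg A, abs_nonneg B]
    have htm : t * (1 + |A| + |B|) = 1 := by rw [ht]; field_simp
    -- points near the corner
    have hmem : ∀ w : E2, w ∈ segment ℝ x' y' → ca σ τ + t • (w - ca σ τ) ∈ TT := by
      intro w hw
      apply hsub'
      have hc : ca σ τ ∈ segment ℝ x' y' := ⟨α, β, hα.le, hβ.le, hab, hz⟩
      exact (convex_segment x' y').add_smul_sub_mem hc hw ⟨ht0.le, ht1⟩
    have hx := hmem x' (left_mem_segment ℝ _ _)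
    have hy := hmem y' (right_mem_segment ℝ _ _)
    have kx := side_TT σ τ _ hx (by
      simp only [PiLp.add_apply, PiLp.smul_apply, PiLp.sub_apply, ca0, ca1, smul_eq_mul]
      have : sg σ * (sg σ + t * (x' 0 - sg σ)) + sg τ * (sg τ + t * (x' 1 - sg τ)) = 2 + t * A := by
        rw [hA]; linear_combination s1 + s2
      rw [this]
      have h1 : t * |A| ≤ 1 := by nlinarith [abs_nonneg A, abs_nonneg B]
      have h2 : -(t * |A|) ≤ t * A := by
        rw [← mul_neg]
        exact mul_le_mul_of_nonneg_left (neg_abs_le A) ht0.le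
      linarith)
    have ky := side_TT σ τ _ hy (by
      simp only [PiLp.add_apply, PiLp.smul_apply, PiLp.sub_apply, ca0, ca1, smul_eq_mul]
      have : sg σ * (sg σ + t * (y' 0 - sg σ)) + sg τ * (sg τ + t * (y' 1 - sg τ)) = 2 + t * B := by
        rw [hB]; linear_combination s1 + s2
      rw [this]
      have h1 : t * |B| ≤ 1 := by nlinarith [abs_nonneg A, abs_nonneg B]
      have h2 : -(t * |B|) ≤ t * B := by
        rw [← mul_neg]
        exact mul_le_mul_of_nonneg_left (neg_abs_le B) ht0.le
      linarith)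
    simp only [PiLp.add_apply, PiLp.smul_apply, PiLp.sub_apply, ca0, ca1, smul_eq_mul] at kx ky
    set u := sg σ * x' 0 - sg τ * x' 1 with hu
    set v := sg σ * y' 0 - sg τ * y' 1 with hv
    have ex : sg σ * (sg σ + t * (x' 0 - sg σ)) - sg τ * (sg τ + t * (x' 1 - sg τ)) = t * u := by
      rw [hu]; linear_combination (1 - t) * s1 - (1 - t) * s2
    have ey : sg σ * (sg σ + t * (y' 0 - sg σ)) - sg τ * (sg τ + t * (y' 1 - sg τ)) = t * v := by
      rw [hv]; linear_combination (1 - t) * s1 - (1 - t) * s2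
    rw [ex] at kx
    rw [ey] at ky
    have huv : α * u + β * v = 0 := by
      rw [hu, hv]; linear_combination sg σ * z0 - sg τ * z1 + s1 - s2
    have hu0 : u ≤ 0 := by
      by_contra h
      push Not at h
      have := mul_pos ht0 h
      linarith [kx.1]
    have hv0 : v ≤ 0 := by
      by_contra h
      push Not at h
      have := mul_pos ht0 h
      linarith [ky.1]
    have hu1 : u = 0 := by nlinarith
    have hv1 : v = 0 := by nlinarith
    have hx2 := kx.2 (by rw [hu1, mul_zero])
    have hy2 := ky.2 (by rw [hv1, mul_zero])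
    have hx3 : x' = ca σ τ := by
      have : t • (x' - ca σ τ) = 0 := by simpa using hx2
      rcases smul_eq_zero.1 this with h | h
      · exact absurd h ht0.ne'
      · exact sub_eq_zero.1 h
    have hy3 : y' = ca σ τ := by
      have : t • (y' - ca σ τ) = 0 := by simpa using hy2
      rcases smul_eq_zero.1 this with h | h
      · exact absurd h ht0.ne'
      · exact sub_eq_zero.1 h
    exact hxy' (hx3.trans hy3.symm)
  · -- an outer terminal is not in the interior of a segment of the first tree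
    simp only [ter, if_true] at ha
    obtain ⟨α, β, hα, hβ, hab, hz⟩ := ha
    have z0 := congrArg (fun p : E2 => p 0) hz
    have z1 := congrArg (fun p : E2 => p 1) hz
    simp only [PiLp.add_apply, PiLp.smul_apply, smul_eq_mul, cb0, cb1] at z0 z1
    have s1 := sg_sq σ
    have s2 := sg_sq τ
    have kx := exposed_TS σ τ x (hsub (left_mem_segment ℝ _ _))
    have ky := exposed_TS σ τ y (hsub (right_mem_segment ℝ _ _))
    set u := sg σ * x 0 + s * (sg τ * x 1) with hu
    set v := sg σ * y 0 + s * (sg τ * y 1) with hv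
    have huv : α * u + β * v = 6 / 5 + s := by
      rw [hu, hv]
      linear_combination sg σ * z0 + s * sg τ * z1 + (1 + 1 / 20) * s1 + s * (1 + s / 20) * s2 +
        (1 / 20) * e1
    have hβ2 : β = 1 - α := by linarith
    rw [hβ2] at huv
    have hu1 : u = 6 / 5 + s := by nlinarith [kx.1, ky.1]
    have hv1 : v = 6 / 5 + s := by nlinarith [kx.1, ky.1]
    exact hxy ((kx.2 hu1).trans (ky.2 hv1).symm)

end Pool.Agent.N545.ST
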