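import Pool.Agent.N545.ST.Cal

/-!
# The two trees, and the length of connected sets near the eight points
-/

set_option autoImplicit false

open Set Filter Topology MeasureTheory

namespace Pool.Agent.N545.ST

/-- the corner `(σ, τ)` of the square -/
noncomputable def ca (σ τ : Bool) : E2 := !₂[sg σ, sg τ]

/-- the end of the tail at the corner `(σ, τ)` -/
noncomputable def cb (σ τ : Bool) : E2 := !₂[sg σ * (1 + 1 / 20), sg τ * (1 + s / 20)]

/-- Steiner points of the first tree -/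
noncomputable def sp (σ : Bool) : E2 := !₂[sg σ * (1 - s / 3), 0]

/-- Steiner points of the second tree -/
noncomputable def tp (τ : Bool) : E2 := !₂[0, sg τ * (1 - s / 3)]

/-- centres of the balls -/
noncomputable def ma (σ τ : Bool) : E2 := !₂[sg σ * (1 - 1 / 200), sg τ * (1 - s / 200)]

/-- centres of the balls -/
noncomputable def mb (σ τ : Bool) : E2 :=
  !₂[sg σ * (1 + 1 / 20 + 1 / 2000), sg τ * (1 + s / 20 + s / 2000)]

@[simp] lemma ca0 (σ τ : Bool) : ca σ τ 0 = sg σ := rfl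
@[simp] lemma ca1 (σ τ : Bool) : ca σ τ 1 = sg τ := rfl
@[simp] lemma cb0 (σ τ : Bool) : cb σ τ 0 = sg σ * (1 + 1 / 20) := rfl
@[simp] lemma cb1 (σ τ : Bool) : cb σ τ 1 = sg τ * (1 + s / 20) := rfl
@[simp] lemma sp0 (σ : Bool) : sp σ 0 = sg σ * (1 - s / 3) := rfl
@[simp] lemma sp1 (σ : Bool) : sp σ 1 = 0 := rfl
@[simp] lemma tp0 (τ : Bool) : tp τ 0 = 0 := rfl
@[simp] lemma tp1 (τ : Bool) : tp τ 1 = sg τ * (1 - s / 3) := rfl
@[simp] lemma ma0 (σ τ : Bool) : ma σ τ 0 = sg σ * (1 - 1 / 200) := rfl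
@[simp] lemma ma1 (σ τ : Bool) : ma σ τ 1 = sg τ * (1 - s / 200) := rfl
@[simp] lemma mb0 (σ τ : Bool) : mb σ τ 0 = sg σ * (1 + 1 / 20 + 1 / 2000) := rfl
@[simp] lemma mb1 (σ τ : Bool) : mb σ τ 1 = sg τ * (1 + s / 20 + s / 2000) := rfl

/-- the terminals -/
noncomputable def ter (i : Bool × Bool × Bool) : E2 := if i.2.2 then cb i.1 i.2.1 else ca i.1 i.2.1

/-- the centres -/
noncomputable def cen (i : Bool × Bool × Bool) : E2 := if i.2.2 then mb i.1 i.2.1 else ma i.1 i.2.1

/-- the first tree -/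
noncomputable def TS : Set E2 :=
  ⋃ k : Bool × Bool, segment ℝ (sp false) (sp true) ∪ segment ℝ (sp k.1) (cb k.1 k.2)

/-- the second tree -/
noncomputable def TT : Set E2 :=
  ⋃ k : Bool × Bool, segment ℝ (tp false) (tp true) ∪
    (segment ℝ (tp k.2) (ca k.1 k.2) ∪ segment ℝ (ca k.1 k.2) (cb k.1 k.2))

lemma ext2 {p q : E2} (h0 : p 0 = q 0) (h1 : p 1 = q 1) : p = q := by
  ext i; fin_cases i
  · exact h0
  · exact h1

/-! ### Topology -/

lemma compact_seg (x y : E2) : IsCompact (segment ℝ x y) := by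
  rw [segment_eq_image_lineMap]
  exact isCompact_Icc.image (by
    simpa using (AffineMap.lineMap_continuous (R := ℝ) (p := x) (q := y)))

lemma conn_seg (x y : E2) : IsPreconnected (segment ℝ x y) := (convex_segment x y).isPreconnected

lemma compact_TS : IsCompact TS :=
  isCompact_iUnion fun _ => (compact_seg _ _).union (compact_seg _ _)

lemma compact_TT : IsCompact TT :=
  isCompact_iUnion fun _ => (compact_seg _ _).union ((compact_seg _ _).union (compact_seg _ _))

lemma sp_mem (σ : Bool) : sp σ ∈ segment ℝ (sp false) (sp true) := by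
  cases σ
  · exact left_mem_segment ℝ _ _
  · exact right_mem_segment ℝ _ _

lemma tp_mem (σ : Bool) : tp σ ∈ segment ℝ (tp false) (tp true) := by
  cases σ
  · exact left_mem_segment ℝ _ _
  · exact right_mem_segment ℝ _ _

lemma conn_TS : IsConnected TS := by
  constructor
  · exact ⟨sp true, mem_iUnion.2 ⟨(true, true), Or.inl (sp_mem true)⟩⟩
  · apply isPreconnected_iUnion
    · exact ⟨sp true, mem_iInter.2 fun k => Or.inl (sp_mem true)⟩
    · intro k
      exact (conn_seg _ _).union (sp k.1) (sp_mem _) (left_mem_segment ℝ _ _) (conn_seg _ _)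

lemma conn_TT : IsConnected TT := by
  constructor
  · exact ⟨tp true, mem_iUnion.2 ⟨(true, true), Or.inl (tp_mem true)⟩⟩
  · apply isPreconnected_iUnion
    · exact ⟨tp true, mem_iInter.2 fun k => Or.inl (tp_mem true)⟩
    · intro k
      refine (conn_seg _ _).union (tp k.2) (tp_mem _) (Or.inl (left_mem_segment ℝ _ _)) ?_
      exact (conn_seg _ _).union (ca k.1 k.2) (right_mem_segment ℝ _ _) (left_mem_segment ℝ _ _)
        (conn_seg _ _)

/-! ### Lengths -/

lemma length_seg (x y : E2) (L : ℝ) (hL : 0 ≤ L) (h : (x 0 - y 0) ^ 2 + (x 1 - y 1) ^ 2 = L ^ 2) :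
    Measure.hausdorffMeasure 1 (segment ℝ x y) = ENNReal.ofReal L := by
  rw [hausdorffMeasure_segment, edist_dist, dist_eq2, h, Real.sqrt_sq hL]

lemma length_TS : Measure.hausdorffMeasure 1 TS ≤ ENNReal.ofReal (4 * ((1 + s) / 2 + 1 / 10)) := by
  have e1 := s_sq
  have e2 := lt_s
  have e3 := s_lt
  have h1 : TS ⊆ segment ℝ (sp false) (sp true) ∪
      ⋃ k : Bool × Bool, segment ℝ (sp k.1) (cb k.1 k.2) := by
    intro z hz
    obtain ⟨k, hk | hk⟩ := mem_iUnion.1 hz
    · exact Or.inl hk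
    · exact Or.inr (mem_iUnion.2 ⟨k, hk⟩)
  have h2 : Measure.hausdorffMeasure 1 (segment ℝ (sp false) (sp true)) =
      ENNReal.ofReal (2 * (1 - s / 3)) := by
    apply length_seg _ _ _ (by linarith)
    simp only [sp0, sp1, sg_true, sg_false]
    ring
  have h3 : ∀ k : Bool × Bool, Measure.hausdorffMeasure 1 (segment ℝ (sp k.1) (cb k.1 k.2)) =
      ENNReal.ofReal (2 * s / 3 + 1 / 10) := by
    rintro ⟨σ, τ⟩
    apply length_seg _ _ _ (by linarith)
    cases σ <;> cases τ <;> simp only [sp0, sp1, cb0, cb1, sg_true, sg_false] <;> nlinarith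
  refine (measure_mono h1).trans ((measure_union_le _ _).trans ?_)
  have h4 : Measure.hausdorffMeasure 1 (⋃ k : Bool × Bool, segment ℝ (sp k.1) (cb k.1 k.2)) ≤
      ENNReal.ofReal (4 * (2 * s / 3 + 1 / 10)) := by
    refine (measure_iUnion_fintype_le _ _).trans ?_
    simp only [h3, Finset.sum_const, Finset.card_univ, Fintype.card_prod, Fintype.card_bool]
    rw [nsmul_eq_mul, ENNReal.ofReal_mul (by norm_num)]
    norm_num
  rw [h2]
  refine (add_le_add_right h4 _).trans ?_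
  rw [← ENNReal.ofReal_add (by linarith) (by linarith)]
  apply ENNReal.ofReal_le_ofReal
  linarith

lemma length_TT : Measure.hausdorffMeasure 1 TT ≤ ENNReal.ofReal (4 * ((1 + s) / 2 + 1 / 10)) := by
  have e1 := s_sq
  have e2 := lt_s
  have e3 := s_lt
  have h1 : TT ⊆ segment ℝ (tp false) (tp true) ∪
      ⋃ k : Bool × Bool, (segment ℝ (tp k.2) (ca k.1 k.2) ∪ segment ℝ (ca k.1 k.2) (cb k.1 k.2)) := by
    intro z hz
    obtain ⟨k, hk | hk⟩ := mem_iUnion.1 hz
    · exact Or.inl hk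
    · exact Or.inr (mem_iUnion.2 ⟨k, hk⟩)
  have h2 : Measure.hausdorffMeasure 1 (segment ℝ (tp false) (tp true)) =
      ENNReal.ofReal (2 * (1 - s / 3)) := by
    apply length_seg _ _ _ (by linarith)
    simp only [tp0, tp1, sg_true, sg_false]
    ring
  have h3 : ∀ k : Bool × Bool, Measure.hausdorffMeasure 1
      (segment ℝ (tp k.2) (ca k.1 k.2) ∪ segment ℝ (ca k.1 k.2) (cb k.1 k.2)) ≤
      ENNReal.ofReal (2 * s / 3 + 1 / 10) := by
    rintro ⟨σ, τ⟩
    refine (measure_union_le _ _).trans ?_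
    rw [length_seg _ _ (2 * s / 3) (by linarith), length_seg _ _ (1 / 10) (by norm_num),
      ← ENNReal.ofReal_add (by linarith) (by linarith)]
    · cases σ <;> cases τ <;> simp only [ca0, ca1, cb0, cb1, sg_true, sg_false] <;> nlinarith
    · cases σ <;> cases τ <;> simp only [ca0, ca1, tp0, tp1, sg_true, sg_false] <;> nlinarith
  refine (measure_mono h1).trans ((measure_union_le _ _).trans ?_)
  have h4 : Measure.hausdorffMeasure 1 (⋃ k : Bool × Bool,
      (segment ℝ (tp k.2) (ca k.1 k.2) ∪ segment ℝ (ca k.1 k.2) (cb k.1 k.2))) ≤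
      ENNReal.ofReal (4 * (2 * s / 3 + 1 / 10)) := by
    refine (measure_iUnion_fintype_le _ _).trans ?_
    refine (Finset.sum_le_sum fun k _ => h3 k).trans ?_
    simp only [Finset.sum_const, Finset.card_univ, Fintype.card_prod, Fintype.card_bool]
    rw [nsmul_eq_mul, ENNReal.ofReal_mul (by norm_num)]
    norm_num
  rw [h2]
  refine (add_le_add_right h4 _).trans ?_
  rw [← ENNReal.ofReal_add (by linarith) (by linarith)]
  apply ENNReal.ofReal_le_ofReal
  linarith

/-! ### Terminals -/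

lemma cb_mem_TS (σ τ : Bool) : cb σ τ ∈ TS :=
  mem_iUnion.2 ⟨(σ, τ), Or.inr (right_mem_segment ℝ _ _)⟩

lemma leaf_mem_TS (σ τ : Bool) (θ : ℝ) (h0 : 0 ≤ θ) (h1 : θ ≤ 1) :
    sp σ + θ • (cb σ τ - sp σ) ∈ TS := by
  refine mem_iUnion.2 ⟨(σ, τ), Or.inr ?_⟩
  rw [segment_eq_image']
  exact ⟨θ, ⟨h0, h1⟩, rfl⟩

lemma ca_mem_TS (σ τ : Bool) : ca σ τ ∈ TS := by
  have e1 := s_sq
  have e2 := lt_s
  have h := leaf_mem_TS σ τ (1 / (1 + s / 20)) (by positivity) (by
    rw [div_le_one (by linarith)]; linarith)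
  convert h using 1
  have hne : 1 + s / 20 ≠ 0 := by positivity
  apply ext2
  · simp only [PiLp.add_apply, PiLp.smul_apply, PiLp.sub_apply, ca0, cb0, sp0, smul_eq_mul]
    field_simp
    linear_combination (sg σ) * e1
  · simp only [PiLp.add_apply, PiLp.smul_apply, PiLp.sub_apply, ca1, cb1, sp1, smul_eq_mul]
    field_simp
    ring

lemma ma_mem_TS (σ τ : Bool) : ma σ τ ∈ TS := by
  have e1 := s_sq
  have e2 := lt_s
  have e3 := s_lt
  have h := leaf_mem_TS σ τ ((1 - s / 200) / (1 + s / 20)) (by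
    apply div_nonneg <;> linarith) (by
    rw [div_le_one (by linarith)]; linarith)
  convert h using 1
  have hne : 1 + s / 20 ≠ 0 := by positivity
  apply ext2
  · simp only [PiLp.add_apply, PiLp.smul_apply, PiLp.sub_apply, ma0, cb0, sp0, smul_eq_mul]
    field_simp
    linear_combination (220 * sg σ) * e1
  · simp only [PiLp.add_apply, PiLp.smul_apply, PiLp.sub_apply, ma1, cb1, sp1, smul_eq_mul]
    field_simp
    ring

lemma ca_mem_TT (σ τ : Bool) : ca σ τ ∈ TT :=
  mem_iUnion.2 ⟨(σ, τ), Or.inr (Or.inl (right_mem_segment ℝ _ _))⟩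

lemma cb_mem_TT (σ τ : Bool) : cb σ τ ∈ TT :=
  mem_iUnion.2 ⟨(σ, τ), Or.inr (Or.inr (right_mem_segment ℝ _ _))⟩

lemma ter_mem_TS : range ter ⊆ TS := by
  rintro _ ⟨⟨σ, τ, o⟩, rfl⟩
  cases o
  · simpa [ter] using ca_mem_TS σ τ
  · simpa [ter] using cb_mem_TS σ τ

lemma ter_mem_TT : range ter ⊆ TT := by
  rintro _ ⟨⟨σ, τ, o⟩, rfl⟩
  cases o
  · simpa [ter] using ca_mem_TT σ τ
  · simpa [ter] using cb_mem_TT σ τ

lemma ter_inj : Function.Injective ter := by
  have e2 := lt_s
  rintro ⟨σ, τ, o⟩ ⟨σ', τ', o'⟩ h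
  have h0 := congrArg (fun p : E2 => p 0) h
  have h1 := congrArg (fun p : E2 => p 1) h
  clear h
  cases σ <;> cases τ <;> cases o <;> cases σ' <;> cases τ' <;> cases o' <;>
    simp only [ter, ca0, ca1, cb0, cb1, sg_true, sg_false, if_true, Bool.false_eq_true,
      if_false] at h0 h1 ⊢ <;> first | rfl | (exfalso; linarith)

lemma cen_inj : Function.Injective cen := by
  have e2 := lt_s
  have e3 := s_lt
  rintro ⟨σ, τ, o⟩ ⟨σ', τ', o'⟩ h
  have h0 := congrArg (fun p : E2 => p 0) h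
  have h1 := congrArg (fun p : E2 => p 1) h
  clear h
  cases σ <;> cases τ <;> cases o <;> cases σ' <;> cases τ' <;> cases o' <;>
    simp only [cen, ma0, ma1, mb0, mb1, sg_true, sg_false, if_true, Bool.false_eq_true,
      if_false] at h0 h1 ⊢ <;> first | rfl | (exfalso; linarith)

/-! ### The trees are different -/

lemma TS_ne_TT : TS ≠ TT := by
  have e1 := s_sq
  have e2 := lt_s
  have e3 := s_lt
  intro h
  have h1 : sp true ∈ TT := by
    rw [← h]
    exact mem_iUnion.2 ⟨(true, true), Or.inl (sp_mem true)⟩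
  obtain ⟨⟨σ, τ⟩, h2 | h2 | h2⟩ := mem_iUnion.1 h1 <;> rw [segment_eq_image'] at h2 <;>
    obtain ⟨θ, ⟨t0, t1⟩, h3⟩ := h2 <;>
    have k0 := congrArg (fun p : E2 => p 0) h3 <;>
    have k1 := congrArg (fun p : E2 => p 1) h3 <;>
    cases σ <;> cases τ <;>
    simp only [PiLp.add_apply, PiLp.smul_apply, PiLp.sub_apply, ca0, ca1, cb0, cb1, sp0, sp1, tp0,
      tp1, smul_eq_mul, sg_true, sg_false] at k0 k1 <;> nlinarith

end Pool.Agent.N545.ST
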